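import Pool.Agent.Lib.MP_d03834_ag.Nag.Final

set_option autoImplicit false

/-- Nagata's conjecture: for n > 9 general points there is no curve of degree d ≤ m √n with
multiplicity at least m at all the points. -/
theorem Pool.Agent.Lib.MP_d03834_ag.Old.nagataOld :
    ∀ n : ℕ, 9 < n → ∀ m : ℕ, 0 < m →
      ∃ F : MvPolynomial (Fin n × Fin 2) ℂ, F ≠ 0 ∧
        ∀ P : Fin n → Fin 2 → ℂ,
          MvPolynomial.eval (fun ij : Fin n × Fin 2 => P ij.1 ij.2) F ≠ 0 →
          ∀ d : ℕ, d ^ 2 ≤ n * m ^ 2 →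
            MvPolynomial.homogeneousSubmodule (Fin 3) ℂ d ⊓
                Submodule.restrictScalars ℂ
                  (⨅ i : Fin n,
                    (Ideal.span
                      ({MvPolynomial.X 0 - MvPolynomial.C (P i 0) * MvPolynomial.X 2,
                        MvPolynomial.X 1 - MvPolynomial.C (P i 1) * MvPolynomial.X 2} :
                        Set (MvPolynomial (Fin 3) ℂ))) ^ m)
            = ⊥ := by
  intro n hn m hm
  obtain ⟨F, hF, h⟩ := Pool.Agent.Lib.MP_d03834_ag.Nag.nagata_all hn hm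
  refine ⟨F, hF, fun P hP d hd => ?_⟩
  rw [eq_bot_iff]
  rintro G ⟨h1, h2⟩
  exact h P hP d hd G h1 fun l => (Submodule.mem_iInf _).1 h2 l
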