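import Pool.Agent.Lib.MP_d03834_ag.Count

set_option autoImplicit false

/-- The conjecture holds, in every degree, for `m ≤ q n / 40` when `p / q` is a reduced fraction
with `q ≤ √n / 10⁶` and `|√n - p / q| ≤ 1 / q²`. -/
theorem Pool.Agent.Lib.MP_d03834_ag.Old.rationalApprox :
    ∀ n m p q : ℕ, 0 < m → Nat.Coprime p q → 1000000 * (q : ℝ) ≤ √(n : ℝ) →
      |√(n : ℝ) - (p : ℝ) / (q : ℝ)| ≤ 1 / (q : ℝ) ^ 2 → 40 * m ≤ q * n →
      ∃ F : MvPolynomial (Fin n × Fin 2) ℂ, F ≠ 0 ∧
        ∀ P : Fin n → Fin 2 → ℂ,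
          MvPolynomial.eval (fun ij : Fin n × Fin 2 => P ij.1 ij.2) F ≠ 0 →
          ∀ d : ℕ, 0 < d →
            Module.finrank ℂ
              ↥(MvPolynomial.homogeneousSubmodule (Fin 3) ℂ d ⊓
                Submodule.restrictScalars ℂ
                  (⨅ i : Fin n,
                    (Ideal.span
                      ({MvPolynomial.X 0 - MvPolynomial.C (P i 0) * MvPolynomial.X 2,
                        MvPolynomial.X 1 - MvPolynomial.C (P i 1) * MvPolynomial.X 2} :
                        Set (MvPolynomial (Fin 3) ℂ))) ^ m))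
            = Nat.choose (d + 2) 2 - n * Nat.choose (m + 1) 2 := by
  intro n m p q hm hpq hq hs hmq
  obtain ⟨F, hF, h⟩ := Pool.Agent.Lib.MP_d03834_ag.dioph n m p q hm hpq hq hs hmq
  exact ⟨F, hF, fun P hP d _ => h P hP d⟩
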